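import Pool.Agent.H330.MinusOdd
import Pool.Agent.H330.Short

/-!
# MP_8339c9_al: `PΩ^-_{2m}(q)` for all even `m ≥ 4` and all odd `q`

`F` is a finite field of odd order `q`, `K` its extension of degree `2m` with `m ≥ 4` even, and
`V = K` carries the symmetric bilinear form `form F K m x y = Tr_{K/F}(x y^(q^m))`.  This space is
nondegenerate of minus type, so `G F K m = Ω(V)/scalars` is `PΩ^-_{2m}(q)`.  Multiplication by an
element of `K` whose `(q^m+1)`-st power is `1` is an isometry: these give the Singer cycles.  For a
subfield `L` of `K` of prime degree `t` over `F`, `t ∣ m`, the normaliser `H m L` in `G` of the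
algebra of multiplications by elements of `L` is the field extension subgroup `H_t` of type
`O^-_{2m/t}(q^t)` containing the Singer cycle.

We construct one `g ∈ G` with `H_t ∩ (H_{t'})^g = 1` for all primes `t, t'` dividing `m`
simultaneously.  By the theorem of Bereczky quoted in the problem the `H_t` are all the maximal
overgroups of a Singer cycle, so `γ_u(PΩ^-_{2m}(q)) = 2` for all even `m ≥ 4` and odd `q`.
-/

namespace Pool.Agent.Results.MP_8339c9_al.MinusTypeOddQ

open Module Pool.Agent.H330 Pool.Agent.H330.Short

section Definitions

variable (F K : Type) [Field F] [Fintype F] [Field K] [Fintype K] [Algebra F K] (m : ℕ)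

/-- The bilinear form `(x, y) ↦ Tr_{K/F}(x * y^(q^m))` on the `F`-space `K`, where `q = |F|`. -/
noncomputable def form (x y : K) : F := Algebra.trace F K (x * y ^ (Fintype.card F ^ m))

/-- `g` preserves the form. -/
def IsIsom (g : LinAut F K) : Prop :=
  ∀ x y : K, form F K m (act g x) (act g y) = form F K m x y

theorem isom_mul {a b : LinAut F K} (ha : IsIsom F K m a) (hb : IsIsom F K m b) :
    IsIsom F K m (a * b) :=
  (Minus.Orth F K m).mul_mem ha hb

theorem isom_one : IsIsom F K m 1 := (Minus.Orth F K m).one_mem

theorem isom_inv {a : LinAut F K} (ha : IsIsom F K m a) : IsIsom F K m a⁻¹ :=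
  (Minus.Orth F K m).inv_mem ha

/-- The full isometry group `O(V)`. -/
def Orth : Subgroup (LinAut F K) :=
  ⟨⟨⟨{g | IsIsom F K m g}, isom_mul F K m⟩, isom_one F K m⟩, isom_inv F K m⟩

/-- `Ω(V)`, the derived subgroup of `O(V)`. -/
def Omega : Subgroup (LinAut F K) := (commutator (Orth F K m)).map (Orth F K m).subtype

/-- `G = PΩ(V) = Ω(V)/scalars`. -/
def G : Type := P (Omega F K m)

/-- The group structure of `G`. -/
instance groupG : Group (G F K m) := projGroup (Omega F K m)

/-- The image in `G` of an element of `Ω(V)`. -/
def toG (t : Omega F K m) : G F K m := proj (Omega F K m) t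

/-- The algebra of the multiplications of `V = K` by the elements of the intermediate field
`L`. -/
def fieldAlg (L : IntermediateField F K) : Subalgebra F (Module.End F K) :=
  L.toSubalgebra.map (Algebra.lmul F K)

/-- The image in `G` of the normaliser in `Ω(V)` of the algebra of the multiplications by
elements of `L`. -/
def H (L : IntermediateField F K) : Subgroup (G F K m) := PNorm (Omega F K m) (fieldAlg F K L)

/-- The set of the field extension subgroups `H_t = H F K m L` of `G`, where `L` runs over the
subfields of `K` of prime degree `t ∣ m` over `F`. -/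
def fieldExts : Set (Subgroup (G F K m)) :=
  {A | ∃ L : IntermediateField F K, (finrank F L).Prime ∧ finrank F L ∣ m ∧ A = H F K m L}

/-- The form on `V = K` is symmetric and nondegenerate, and `V` (of dimension `2m`) has no totally
isotropic subspace of dimension `m`: it is the space of minus type. -/
def IsMinusType : Prop :=
  (∀ x y : K, form F K m x y = form F K m y x) ∧
    (∀ x : K, (∀ y, form F K m x y = 0) → x = 0) ∧
    ∀ U : Submodule F K, (∀ x ∈ U, ∀ y ∈ U, form F K m x y = 0) → finrank F U < m

/-- Every multiplication by `y^2`, where `y^(q^m+1) = 1`, lies in `Ω(V)`, and its image in `G` lies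
in all members of `fieldExts`. -/
def SingerInside : Prop :=
  ∀ y : K, y ^ (Fintype.card F ^ m + 1) = 1 → ∃ t : Omega F K m,
    (∀ x : K, act (t : LinAut F K) x = y ^ 2 * x) ∧ ∀ A ∈ fieldExts F K m, toG F K m t ∈ A

end Definitions

/-- **Main result.**  Let `q = |F|` be odd, `m ≥ 4` even and `[K : F] = 2m`.
(1) `V = K` with the form `Tr_{K/F}(x y^(q^m))` is the nondegenerate space of minus type of
dimension `2m`, so `G F K m = PΩ^-_{2m}(q)`.
(2) There is one `g ∈ G` such that `A ∩ B^g = 1` for all field extension subgroups `A = H_t`,
`B = H_{t'}`, `t, t'` prime divisors of `m`.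
(3) `b(G, G/H_t) = 2` for each of them.
(4) All of them contain the images of the multiplications by `y^2`, `y ∈ K`, `y^(q^m+1) = 1`
(for a generator `y` of the group of these elements, a Singer cycle of `G`).
(5) If `s ≠ 1` is an element of `G` each of whose maximal overgroups is one of the `H_t`,
then some pair `{s, s^g}` is a total dominating set of `G` and `γ_u(G) = 2`. -/
theorem result (F K : Type) [Field F] [Fintype F] [Field K] [Fintype K] [Algebra F K] (m : ℕ)
    (hq : Odd (Fintype.card F)) (hm4 : 4 ≤ m) (hme : Even m) (hm : finrank F K = 2 * m) :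
    IsMinusType F K m ∧ TrivialMeet (fieldExts F K m) ∧ BaseTwo (fieldExts F K m) ∧
    SingerInside F K m ∧ UniformPair (fieldExts F K m) := by
  obtain ⟨h1, h2, h3, h4, h5⟩ := MinusOdd.result F K m hq hm4 hme hm
  exact ⟨h1, h2, h3, h4, h5⟩

end Pool.Agent.Results.MP_8339c9_al.MinusTypeOddQ
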