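import Pool.Agent.H330.PT.Final
import Pool.Agent.H330.PT.EVEN
import Pool.Agent.H330.PT.PERP
import Pool.Agent.H330.PT.ISOT
import Pool.Agent.H330.PT.SIEG
import Pool.Agent.H330.PT.NIL
import Pool.Agent.H330.PT.STRUCT
import Pool.Agent.H330.PT.DEG
import Pool.Agent.H330.PT.BETA
import Pool.Agent.H330.PT.XX
import Pool.Agent.H330.PT.ISO
import Pool.Agent.H330.PT.UNI
import Pool.Agent.H330.PT.NH
import Pool.Agent.H330.PT.JW
import Pool.Agent.H330.PT.JV
import Pool.Agent.H330.PT.EVO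
import Pool.Agent.H330.PT.FIX
import Pool.Agent.H330.PT.TS
import Pool.Agent.H330.PT.PROPW
import Pool.Agent.H330.PT.PROPJ
import Pool.Agent.H330.PT.TOP
import Pool.Agent.H330.EvenQ.DOM
import Pool.Agent.H330.Short

/-!
# MP_8339c9_al: `γ_u(PΩ^+_{2m}(q)) ≥ 3` for all odd `q` and all `m ≡ 2 mod 4`, `m ≥ 6`

`F` is a finite field of odd characteristic, `V` an `F`-space of dimension `2m` with a symmetric
nondegenerate bilinear form `B` of plus type (there is a totally isotropic subspace of dimension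
`m`), `Omega B = [O(V, B), O(V, B)]` and `POmega B` is its quotient by the scalars, the simple group
`G = PΩ^+_{2m}(q)`.

An element `s` of `G` which can be a member of a conjugate pair that is a total dominating set
preserves a decomposition `V = U ⊥ U^⊥` into spaces of dimension `m` and is irreducible on both.
For `m ≡ 2 mod 4` the field `F_{q^2}` inside the field `F[s|U]` of order `q^m` is mapped to itself
by the adjoint map, not identically: a square root `δ` of a nonsquare `d ∈ F` satisfies `δ* = -δ`.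
So `s` commutes with a skew operator `J` with `J² = d`, that is `s` lies in the subgroup of type
`GU_m(q)`, and any two such operators `J`, `J'` commute with a common unipotent element of `Ω`.
-/

namespace Pool.Agent.Results.MP_8339c9_al.PlusTypeTwoModFour

open Pool.Agent.H330 Pool.Agent.H330.Short Module

section Definitions

variable {F V : Type} [Field F] [AddCommGroup V] [Module F V]

/-- `B` is symmetric and nondegenerate. -/
def IsForm (B : V →ₗ[F] V →ₗ[F] F) : Prop :=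
  (∀ x y, B x y = B y x) ∧ ∀ x, (∀ y, B x y = 0) → x = 0

/-- Plus type: some totally isotropic subspace has half the dimension of `V`. -/
def IsPlus (B : V →ₗ[F] V →ₗ[F] F) : Prop :=
  ∃ U : Submodule F V, (∀ x ∈ U, ∀ y ∈ U, B x y = 0) ∧ 2 * finrank F U = finrank F V

/-- `g` preserves `B`. -/
def IsIsom (B : V →ₗ[F] V →ₗ[F] F) (g : LinAut F V) : Prop :=
  ∀ x y : V, B (act g x) (act g y) = B x y

theorem isom_mul (B : V →ₗ[F] V →ₗ[F] F) {a b : LinAut F V} (ha : IsIsom B a) (hb : IsIsom B b) :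
    IsIsom B (a * b) :=
  (PT.Orth B).mul_mem ha hb

theorem isom_one (B : V →ₗ[F] V →ₗ[F] F) : IsIsom B 1 := (PT.Orth B).one_mem

theorem isom_inv (B : V →ₗ[F] V →ₗ[F] F) {a : LinAut F V} (ha : IsIsom B a) : IsIsom B a⁻¹ :=
  (PT.Orth B).inv_mem ha

/-- The isometry group `O(V, B)`. -/
def Orth (B : V →ₗ[F] V →ₗ[F] F) : Subgroup (LinAut F V) :=
  ⟨⟨⟨{g | IsIsom B g}, isom_mul B⟩, isom_one B⟩, isom_inv B⟩

/-- `Ω(V, B) = [O(V, B), O(V, B)]`. -/
def Omega (B : V →ₗ[F] V →ₗ[F] F) : Subgroup (LinAut F V) := ⁅Orth B, Orth B⁆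

/-- `PΩ(V, B) = Ω(V, B)/scalars`. -/
def POmega (B : V →ₗ[F] V →ₗ[F] F) : Type := P (Omega B)

/-- The group structure of `PΩ(V, B)`. -/
instance groupPOmega (B : V →ₗ[F] V →ₗ[F] F) : Group (POmega B) := projGroup (Omega B)

/-- Every `s ∈ G` lies in a proper subgroup `H` with `H ∩ gHg⁻¹ ≠ 1` for all `g ∈ G`. -/
def MeetingOvergroups (G : Type) [Group G] : Prop :=
  ∀ s : G, ∃ H : Subgroup G, s ∈ H ∧ H ≠ ⊤ ∧
    ∀ g : G, ∃ c : G, c ≠ 1 ∧ c ∈ H ∧ g⁻¹ * c * g ∈ H

end Definitions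

/-- Let `F` be a finite field of odd characteristic, `m ≥ 6`, `m ≡ 2 mod 4`, `V` an `F`-space of
dimension `2 * m`, `B` a symmetric nondegenerate bilinear form on `V` of plus type, and
`G = PΩ(V, B)`.  Then `γ_u(G) ≥ 3`; in fact every `s ∈ G` lies in a proper subgroup `H` of `G` with
`H ∩ gHg⁻¹ ≠ 1` for every `g ∈ G`. -/
theorem result (F V : Type) [Field F] [Finite F] (h2 : (2 : F) ≠ 0) [AddCommGroup V] [Module F V]
    [FiniteDimensional F V] (m : ℕ) (hm : 6 ≤ m) (hm4 : m % 4 = 2) (hV : finrank F V = 2 * m)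
    (B : V →ₗ[F] V →ₗ[F] F) (hB : IsForm B) (hp : IsPlus B) :
    3 ≤ EvenQ.gammaU (POmega B) ∧ MeetingOvergroups (POmega B) := by
  have hNIL := PT.h_NIL PT.h_SIEG
  have hXX := PT.h_XX PT.h_STRUCT PT.h_BETA
  have hISO := PT.h_ISO PT.h_PERP PT.h_ISOT PT.h_STRUCT PT.h_DEG
  have hUNI := PT.h_UNI hISO hXX hNIL
  have hJV := PT.h_JV PT.h_PERP PT.h_JW
  have hEVO := PT.h_EVO PT.h_EVEN
  have hFIX := PT.h_FIX PT.h_ISOT PT.h_SIEG
  have hTS := PT.h_TS PT.h_SIEG
  have hPW := PT.h_PROPW PT.h_PERP PT.h_SIEG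
  have hPJ := PT.h_PROPJ PT.h_PERP PT.h_ISOT PT.h_SIEG
  have hTOP := PT.h_TOP PT.h_PERP hEVO hJV hUNI PT.h_NH hFIX hTS hPW hPJ
  have hB' : PT.IsForm B := ⟨hB.1, hB.2⟩
  exact ⟨(PT.final hTOP EvenQ.h_DOM F V h2 m hm hm4 hV B hB' hp).1,
    PT.subgroups hTOP F V h2 B hB' hp m hm hm4 hV⟩

end Pool.Agent.Results.MP_8339c9_al.PlusTypeTwoModFour
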